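import Mathlib
import Pool.Agent.Lib.MP_6d4359_pr.PL
import Pool.Agent.Lib.MP_6d4359_pr.Fresnel
import Pool.Agent.Lib.MP_6d4359_pr.SmallBall
import Pool.Agent.Lib.MP_6d4359_pr.Body

open MeasureTheory Set
open scoped Pointwise ENNReal

namespace Pool.Agent.Results.MP_6d4359_pr.FourierDecayFails

open Pool.Agent.Lib.MP_6d4359_pr

/-- Log-concavity of a Borel measure `μ` on `ℝⁿ`:
`μ (l A + (1 - l) B) ≥ μ(A)^l μ(B)^(1-l)` for all nonempty Borel sets `A, B` and all `l ∈ [0,1]`. -/
def IsLogConcave {n : ℕ} (μ : Measure (Fin n → ℝ)) : Prop :=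
  ∀ A B : Set (Fin n → ℝ), MeasurableSet A → MeasurableSet B → A.Nonempty → B.Nonempty →
    ∀ l : ℝ, 0 ≤ l → l ≤ 1 → μ A ^ l * μ B ^ (1 - l) ≤ μ (l • A + (1 - l) • B)

/-- The uniform probability measure on a planar convex body is log-concave. -/
lemma unif_logConcave {S : Set (Fin 2 → ℝ)} (hS : MeasurableSet S) (hc : Convex ℝ S)
    (h0 : volume S ≠ 0) (htop : volume S ≠ ⊤) :
    IsLogConcave ((volume S)⁻¹ • (volume.restrict S)) := by
  intro A B hA hB hAn hBn l hl0 hl1
  rcases hl0.eq_or_lt with rfl | hl0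
  · simp only [ENNReal.rpow_zero, one_mul, sub_zero, ENNReal.rpow_one, one_smul]
    rw [Set.zero_smul_set hAn, zero_add]
  rcases hl1.eq_or_lt with rfl | hl1
  · simp only [ENNReal.rpow_one, sub_self, ENNReal.rpow_zero, mul_one, one_smul]
    rw [Set.zero_smul_set hBn, add_zero]
  have hm : 0 < 1 - l := by linarith
  set m := 1 - l with hmdef
  have hlm : l + m = 1 := by rw [hmdef]; ring
  simp only [Measure.smul_apply, smul_eq_mul]
  rw [Measure.restrict_apply hA, Measure.restrict_apply hB, Measure.restrict_apply' hS,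
    ENNReal.mul_rpow_of_nonneg _ _ hl0.le, ENNReal.mul_rpow_of_nonneg _ _ hm.le]
  have hV : ((volume S)⁻¹) ^ l * ((volume S)⁻¹) ^ m = (volume S)⁻¹ := by
    rw [← ENNReal.rpow_add _ _ (ENNReal.inv_ne_zero.2 htop) (ENNReal.inv_ne_top.2 h0), hlm,
      ENNReal.rpow_one]
  calc (volume S)⁻¹ ^ l * volume (A ∩ S) ^ l * ((volume S)⁻¹ ^ m * volume (B ∩ S) ^ m)
      = ((volume S)⁻¹ ^ l * (volume S)⁻¹ ^ m) * (volume (A ∩ S) ^ l * volume (B ∩ S) ^ m) := by
        ring
    _ = (volume S)⁻¹ * (volume (A ∩ S) ^ l * volume (B ∩ S) ^ m) := by rw [hV]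
    _ ≤ (volume S)⁻¹ * volume (l • (A ∩ S) + m • (B ∩ S)) := by
        gcongr
        exact bm_fin_two (hA.inter hS) (hB.inter hS) hl0 hm hlm
    _ ≤ (volume S)⁻¹ * volume ((l • A + m • B) ∩ S) := by
        gcongr
        rintro _ ⟨_, ⟨a, ha, rfl⟩, _, ⟨b, hb, rfl⟩, rfl⟩
        exact ⟨⟨_, ⟨a, ha.1, rfl⟩, _, ⟨b, hb.1, rfl⟩, rfl⟩, hc ha.2 hb.2 hl0.le hm.le hlm⟩

/-- The polynomial. -/
noncomputable def poly (A δ κ : ℝ) (d : ℕ) : MvPolynomial (Fin 2) ℝ :=
  MvPolynomial.C A * ((MvPolynomial.X 0 - MvPolynomial.X 1 ^ 2) ^ 2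
    + MvPolynomial.C δ * MvPolynomial.X 1 + MvPolynomial.C κ * MvPolynomial.X 1 ^ d)

lemma eval_poly (A δ κ : ℝ) (d : ℕ) (p : Fin 2 → ℝ) :
    MvPolynomial.eval p (poly A δ κ d)
      = A * ((p 0 - p 1 ^ 2) ^ 2 + (δ * p 1 + κ * p 1 ^ d)) := by
  simp [poly]
  left
  ring

lemma totalDegree_poly {A δ κ : ℝ} {d : ℕ} (hd : 4 ≤ d) (hA : A ≠ 0) (hκ : 0 < κ) :
    (poly A δ κ d).totalDegree = d := by
  apply le_antisymm
  · unfold poly
    refine (MvPolynomial.totalDegree_mul _ _).trans ?_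
    rw [MvPolynomial.totalDegree_C, zero_add]
    refine (MvPolynomial.totalDegree_add _ _).trans (max_le ?_ ?_)
    · refine (MvPolynomial.totalDegree_add _ _).trans (max_le ?_ ?_)
      · refine (MvPolynomial.totalDegree_pow _ _).trans ?_
        have : (MvPolynomial.X 0 - MvPolynomial.X 1 ^ 2 : MvPolynomial (Fin 2) ℝ).totalDegree ≤ 2 := by
          refine (MvPolynomial.totalDegree_sub _ _).trans (max_le ?_ ?_)
          · rw [MvPolynomial.totalDegree_X]; norm_num
          · rw [MvPolynomial.totalDegree_X_pow]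
        omega
      · refine (MvPolynomial.totalDegree_mul _ _).trans ?_
        rw [MvPolynomial.totalDegree_C, zero_add, MvPolynomial.totalDegree_X]
        omega
    · refine (MvPolynomial.totalDegree_mul _ _).trans ?_
      rw [MvPolynomial.totalDegree_C, zero_add, MvPolynomial.totalDegree_X_pow]
  · have hc : MvPolynomial.coeff (Finsupp.single 1 d) (poly A δ κ d) ≠ 0 := by
      have e : poly A δ κ d = MvPolynomial.C A * (MvPolynomial.monomial (Finsupp.single 0 2) 1
          - MvPolynomial.monomial (Finsupp.single 0 1 + Finsupp.single 1 2) 2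
          + MvPolynomial.monomial (Finsupp.single 1 4) 1
          + MvPolynomial.monomial (Finsupp.single 1 1) δ
          + MvPolynomial.monomial (Finsupp.single 1 d) κ) := by
        have m1 : (MvPolynomial.monomial (Finsupp.single 0 2) 1 : MvPolynomial (Fin 2) ℝ)
            = MvPolynomial.X 0 ^ 2 := (MvPolynomial.X_pow_eq_monomial).symm
        have m2 : (MvPolynomial.monomial (Finsupp.single 0 1 + Finsupp.single 1 2) 2 :
            MvPolynomial (Fin 2) ℝ) = 2 * MvPolynomial.X 0 * MvPolynomial.X 1 ^ 2 := by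
          have : (MvPolynomial.monomial (Finsupp.single 0 1 + Finsupp.single 1 2) 2 :
            MvPolynomial (Fin 2) ℝ) = MvPolynomial.C 2 *
              (MvPolynomial.X 0 ^ 1 * MvPolynomial.X 1 ^ 2) := by
            rw [MvPolynomial.X_pow_eq_monomial, MvPolynomial.X_pow_eq_monomial,
              MvPolynomial.monomial_mul, MvPolynomial.C_mul_monomial]
            norm_num
          rw [this, pow_one, ← mul_assoc]
          rfl
        have m3 : (MvPolynomial.monomial (Finsupp.single 1 4) 1 : MvPolynomial (Fin 2) ℝ)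
            = MvPolynomial.X 1 ^ 4 := (MvPolynomial.X_pow_eq_monomial).symm
        have m4 : (MvPolynomial.monomial (Finsupp.single 1 1) δ : MvPolynomial (Fin 2) ℝ)
            = MvPolynomial.C δ * MvPolynomial.X 1 := by
          rw [← pow_one (MvPolynomial.X 1), MvPolynomial.X_pow_eq_monomial,
            MvPolynomial.C_mul_monomial, mul_one]
        have m5 : (MvPolynomial.monomial (Finsupp.single 1 d) κ : MvPolynomial (Fin 2) ℝ)
            = MvPolynomial.C κ * MvPolynomial.X 1 ^ d := by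
          rw [MvPolynomial.X_pow_eq_monomial, MvPolynomial.C_mul_monomial, mul_one]
        rw [m1, m2, m3, m4, m5, poly]
        ring
      rw [e, MvPolynomial.coeff_C_mul, MvPolynomial.coeff_add, MvPolynomial.coeff_add,
        MvPolynomial.coeff_add, MvPolynomial.coeff_sub]
      simp only [MvPolynomial.coeff_monomial]
      have i1 : ¬ (Finsupp.single (0 : Fin 2) 2 = Finsupp.single 1 d) := by
        intro h
        have := DFunLike.congr_fun h 0
        simp at this
      have i2 : ¬ (Finsupp.single (0 : Fin 2) 1 + Finsupp.single 1 2 = Finsupp.single 1 d) := by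
        intro h
        have := DFunLike.congr_fun h 0
        simp at this
      have i3 : ¬ (Finsupp.single (1 : Fin 2) 1 = Finsupp.single 1 d) := by
        intro h
        have := DFunLike.congr_fun h 1
        simp at this
        omega
      rw [if_neg i1, if_neg i2, if_neg i3, if_pos trivial]
      refine mul_ne_zero hA (ne_of_gt ?_)
      have : (0:ℝ) ≤ if Finsupp.single (1 : Fin 2) 4 = Finsupp.single 1 d then 1 else 0 := by
        split_ifs <;> norm_num
      linarith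
    have := MvPolynomial.le_totalDegree (MvPolynomial.mem_support_iff.2 hc)
    simpa using this

/-- **Theorem.** For every degree `d ≥ 4`, every small-ball constant `C > 0` and every fixed exponent
`α ∈ (1/2, 1)`, no constant `C'` works, already in dimension two. -/
theorem result :
    ∀ d : ℕ, 4 ≤ d → ∀ C : ℝ, 0 < C → ∀ α : ℝ, 1 / 2 < α → α < 1 → ∀ C' : ℝ,
      ∃ μ : Measure (Fin 2 → ℝ), IsProbabilityMeasure μ ∧ IsLogConcave μ ∧
        ∃ f : MvPolynomial (Fin 2) ℝ, f.totalDegree = d ∧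
          (∀ a ε : ℝ, 0 < ε →
            μ {x | |MvPolynomial.eval x f - a| ≤ ε} ≤ ENNReal.ofReal (C * ε ^ α)) ∧
          ∃ t : ℝ, t ≠ 0 ∧ C' / |t| ^ α <
            ‖∫ x, Complex.exp (-(Complex.I * t * (MvPolynomial.eval x f : ℝ))) ∂μ‖ := by
  intro d hd C hC α hα hα1 C'
  set M := 20 / C with hMdef
  have hM : 0 < M := by positivity
  -- choose N
  obtain ⟨N, hN4, hNbig⟩ : ∃ N : ℕ, 4 ≤ N ∧ 1200 * M * C' < (N : ℝ) ^ (α - 1 / 2) := by
    have h1 : Filter.Tendsto (fun n : ℕ => (n : ℝ) ^ (α - 1 / 2)) Filter.atTop Filter.atTop :=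
      (tendsto_rpow_atTop (by linarith)).comp tendsto_natCast_atTop_atTop
    exact ((Filter.eventually_ge_atTop 4).and (h1.eventually_gt_atTop (1200 * M * C'))).exists
  have hN0 : N ≠ 0 := by omega
  have hNr : (0:ℝ) < N := by positivity
  have hN1 : (1:ℝ) ≤ N := by exact_mod_cast Nat.one_le_iff_ne_zero.2 hN0
  have hpi := Real.pi_pos
  set δ : ℝ := ((N:ℝ) ^ 3)⁻¹ with hδdef
  have hδ : 0 < δ := by positivity
  set κ : ℝ := (1200 * (N:ℝ) ^ 6 * (2 * Real.pi) ^ d)⁻¹ with hκdef
  have hκ : 0 < κ := by positivity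
  set A : ℝ := (M * δ ^ (1 / 2 - α)) ^ (1 / α) with hAdef
  have hbase : 0 < M * δ ^ (1 / 2 - α) := by positivity
  have hA : 0 < A := by positivity
  have hα0 : 0 < α := by linarith
  have hAα : A ^ α = M * δ ^ (1 / 2 - α) := by
    rw [hAdef, ← Real.rpow_mul hbase.le, one_div_mul_cancel hα0.ne', Real.rpow_one]
  set r : ℝ → ℝ := fun s => δ * s + κ * s ^ d with hrdef
  have hrc : Continuous r := by rw [hrdef]; fun_prop
  have hκπ : κ * (2 * Real.pi) ^ d = 1 / (1200 * (N:ℝ) ^ 6) := by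
    rw [hκdef]
    field_simp
  have hκδ : κ * (2 * Real.pi) ^ d ≤ δ := by
    rw [hκπ, hδdef, one_div]
    apply inv_anti₀ (by positivity)
    have : (N:ℝ) ^ 3 ≤ (N:ℝ) ^ 6 := pow_le_pow_right₀ hN1 (by norm_num)
    nlinarith [pow_pos hNr 6]
  set V := volume (K N) with hVdef
  have hV1 : 1 ≤ V := one_le_vol_K hN0
  have hV2 : V ≤ ENNReal.ofReal 300 := vol_K_le hN0
  have hVtop : V ≠ ⊤ := ne_top_of_le_ne_top ENNReal.ofReal_ne_top hV2
  have hV0 : V ≠ 0 := (zero_lt_one.trans_le hV1).ne'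
  refine ⟨V⁻¹ • (volume.restrict (K N)), ⟨?_⟩, ?_, poly A δ κ d, ?_, ?_, ?_⟩
  · rw [Measure.smul_apply, Measure.restrict_apply_univ, smul_eq_mul, ENNReal.inv_mul_cancel hV0 hVtop]
  · exact unif_logConcave (K_meas N) (K_convex hN0) hV0 hVtop
  · exact totalDegree_poly hd hA.ne' hκ
  · -- small ball
    intro a ε hε
    set e := ε / A with hedef
    have he : 0 < e := by positivity
    have hsub : {x : Fin 2 → ℝ | |MvPolynomial.eval x (poly A δ κ d) - a| ≤ ε} ∩ K N
        ⊆ MeasurableEquiv.finTwoArrow (α := ℝ) ⁻¹' (T r (a / A) e) := by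
      rintro p ⟨hp, hpK⟩
      simp only [Set.mem_ofPred_eq] at hp
      rw [eval_poly] at hp
      refine ⟨hpK.1, hpK.2.1, ?_⟩
      change |(p 0 - p 1 ^ 2) ^ 2 + r (p 1) - a / A| ≤ ε / A
      rw [le_div_iff₀ hA, ← abs_of_pos hA, ← abs_mul, abs_of_pos hA]
      have : ((p 0 - p 1 ^ 2) ^ 2 + r (p 1) - a / A) * A
          = A * ((p 0 - p 1 ^ 2) ^ 2 + (δ * p 1 + κ * p 1 ^ d)) - a := by
        rw [hrdef]
        field_simp
      rwa [this]
    have hvolT : volume (T r (a / A) e) ≤ ENNReal.ofReal (20 * (e ^ α * δ ^ (1 / 2 - α))) := by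
      rcases le_total e δ with hed | hed
      · have h2 := vol_T_le_two hrc (a / A) he.le hδ (L := 8 * δ) (by positivity)
          (fun s s' hs hss' _ => by
            have : s ^ d ≤ s' ^ d := pow_le_pow_left₀ hs hss' d
            simp only [hrdef]
            nlinarith)
          (fun s hs _ => by simp only [hrdef]; positivity)
          (fun s hs hs2 => by
            have h3 : s ^ d ≤ (2 * Real.pi) ^ d := pow_le_pow_left₀ hs hs2 d
            have h4 : κ * s ^ d ≤ δ := (mul_le_mul_of_nonneg_left h3 hκ.le).trans hκδ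
            have h5 : δ * s ≤ 7 * δ := by
              have := Real.pi_lt_d2
              nlinarith
            simp only [hrdef]
            linarith)
        refine h2.trans (ENNReal.ofReal_le_ofReal ?_)
        have h6 : √(8 * δ + 2 * e) ≤ 4 * √δ := by
          rw [Real.sqrt_le_left (by positivity), mul_pow, Real.sq_sqrt hδ.le]
          linarith
        have h7 : e / δ * √δ ≤ e ^ α * δ ^ (1 / 2 - α) := by
          have e1 : e / δ * √δ = e ^ α * (e ^ (1 - α) * δ ^ (-(1:ℝ) / 2)) := by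
            rw [← mul_assoc, ← Real.rpow_add he, Real.sqrt_eq_rpow]
            have : α + (1 - α) = 1 := by ring
            rw [this, Real.rpow_one, div_mul_eq_mul_div, mul_div_assoc]
            congr 1
            rw [← Real.rpow_sub_one hδ.ne']
            norm_num
          rw [e1]
          apply mul_le_mul_of_nonneg_left _ (by positivity)
          have e2 : δ ^ (1 / 2 - α) = δ ^ (1 - α) * δ ^ (-(1:ℝ) / 2) := by
            rw [← Real.rpow_add hδ]
            congr 1
            ring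
          rw [e2]
          apply mul_le_mul_of_nonneg_right _ (by positivity)
          exact Real.rpow_le_rpow he.le hed (by linarith)
        calc 2 * e / δ * (2 * √(8 * δ + 2 * e)) ≤ 2 * e / δ * (2 * (4 * √δ)) := by gcongr
          _ = 16 * (e / δ * √δ) := by ring
          _ ≤ 16 * (e ^ α * δ ^ (1 / 2 - α)) := by linarith
          _ ≤ 20 * (e ^ α * δ ^ (1 / 2 - α)) := by
            have : 0 ≤ e ^ α * δ ^ (1 / 2 - α) := by positivity
            linarith
      · refine (vol_T_le_one hrc (a / A) he.le).trans (ENNReal.ofReal_le_ofReal ?_)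
        have h6 : √(2 * e) ≤ 1.5 * √e := by
          rw [Real.sqrt_le_left (by positivity), mul_pow, Real.sq_sqrt he.le]
          linarith
        have h7 : √e ≤ e ^ α * δ ^ (1 / 2 - α) := by
          have e1 : √e = e ^ α * e ^ (1 / 2 - α) := by
            rw [← Real.rpow_add he, Real.sqrt_eq_rpow]
            congr 1
            ring
          rw [e1]
          apply mul_le_mul_of_nonneg_left _ (by positivity)
          exact Real.rpow_le_rpow_of_nonpos hδ hed (by linarith)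
        have := Real.pi_lt_d2
        calc 2 * √(2 * e) * (2 * Real.pi) ≤ 2 * (1.5 * √e) * (2 * 3.15) := by gcongr
          _ ≤ 20 * √e := by nlinarith [Real.sqrt_nonneg e]
          _ ≤ 20 * (e ^ α * δ ^ (1 / 2 - α)) := by linarith
    have hfin : 20 * (e ^ α * δ ^ (1 / 2 - α)) = C * ε ^ α := by
      rw [hedef, Real.div_rpow hε.le hA.le, hAα, hMdef]
      field_simp
    rw [hfin] at hvolT
    rw [Measure.smul_apply, smul_eq_mul, Measure.restrict_apply' (K_meas N)]
    calc V⁻¹ * volume ({x : Fin 2 → ℝ | |MvPolynomial.eval x (poly A δ κ d) - a| ≤ ε} ∩ K N)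
        ≤ 1 * volume (MeasurableEquiv.finTwoArrow (α := ℝ) ⁻¹' (T r (a / A) e)) := by
          gcongr
          exact ENNReal.inv_le_one.2 hV1
      _ = volume (T r (a / A) e) := by
          rw [one_mul]
          exact (volume_preserving_finTwoArrow ℝ).measure_preimage_equiv _
      _ ≤ ENNReal.ofReal (C * ε ^ α) := hvolT
  · -- Fourier side
    set t : ℝ := (N:ℝ) ^ 4 / A with htdef
    have ht : 0 < t := by positivity
    refine ⟨t, ht.ne', ?_⟩
    rw [integral_smul_measure]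
    -- the integrand
    have hexp : ∀ p : Fin 2 → ℝ,
        Complex.exp (-(Complex.I * t * (MvPolynomial.eval p (poly A δ κ d) : ℝ)))
        = h0 N (p 0, p 1) * Complex.exp (Complex.I * ((-((N:ℝ) ^ 4 * (κ * p 1 ^ d)) : ℝ) : ℂ)) := by
      intro p
      rw [eval_poly]
      simp only [h0, chirp, ch]
      rw [← Complex.exp_add, ← Complex.exp_add]
      congr 1
      have e1 : t * (A * ((p 0 - p 1 ^ 2) ^ 2 + (δ * p 1 + κ * p 1 ^ d)))
          = ((N:ℝ) ^ 2 * (p 0 - p 1 ^ 2)) ^ 2 + N * p 1 + (N:ℝ) ^ 4 * (κ * p 1 ^ d) := by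
        rw [htdef, hδdef]
        field_simp
        ring
      have e2 : (t : ℂ) * ((A * ((p 0 - p 1 ^ 2) ^ 2 + (δ * p 1 + κ * p 1 ^ d)) : ℝ) : ℂ)
          = ((((N:ℝ) ^ 2 * (p 0 - p 1 ^ 2)) ^ 2 + N * p 1 + (N:ℝ) ^ 4 * (κ * p 1 ^ d) : ℝ) : ℂ) := by
        rw [← e1]
        push_cast
        ring
      rw [mul_assoc, e2]
      push_cast
      ring
    have hVr : V.toReal ≤ 300 := by
      have := ENNReal.toReal_mono ENNReal.ofReal_ne_top hV2
      rwa [ENNReal.toReal_ofReal (by norm_num)] at this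
    have hVr0 : 0 < V.toReal := ENNReal.toReal_pos hV0 hVtop
    have hfinK : volume (K N) < ⊤ := lt_of_le_of_ne le_top hVtop
    have cont1 : Continuous fun p : Fin 2 → ℝ => h0 N (p 0, p 1) :=
      (h0_cont N).comp (by fun_prop)
    have cont2 : Continuous fun p : Fin 2 → ℝ => h0 N (p 0, p 1) *
        Complex.exp (Complex.I * ((-((N:ℝ) ^ 4 * (κ * p 1 ^ d)) : ℝ) : ℂ)) :=
      cont1.mul (by fun_prop)
    have int1 : IntegrableOn (fun p : Fin 2 → ℝ => h0 N (p 0, p 1)) (K N) := by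
      refine Measure.integrableOn_of_bounded (M := 1) hfinK.ne cont1.aestronglyMeasurable ?_
      exact Filter.Eventually.of_forall (fun z => (norm_h0 N _).le)
    have int2 : IntegrableOn (fun p : Fin 2 → ℝ => h0 N (p 0, p 1) *
        Complex.exp (Complex.I * ((-((N:ℝ) ^ 4 * (κ * p 1 ^ d)) : ℝ) : ℂ))) (K N) := by
      refine Measure.integrableOn_of_bounded (M := 1) hfinK.ne cont2.aestronglyMeasurable ?_
      refine Filter.Eventually.of_forall (fun z => ?_)
      rw [norm_mul, norm_h0, Complex.norm_exp_I_mul_ofReal, one_mul]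
    have hdiff : ‖(∫ p in K N, h0 N (p 0, p 1) *
        Complex.exp (Complex.I * ((-((N:ℝ) ^ 4 * (κ * p 1 ^ d)) : ℝ) : ℂ)))
        - ∫ p in K N, h0 N (p 0, p 1)‖ ≤ 1 / (4 * (N:ℝ) ^ 2) := by
      rw [← integral_sub int2 int1]
      have hb : ∀ p ∈ K N, ‖h0 N (p 0, p 1) *
          Complex.exp (Complex.I * ((-((N:ℝ) ^ 4 * (κ * p 1 ^ d)) : ℝ) : ℂ)) - h0 N (p 0, p 1)‖
          ≤ (N:ℝ) ^ 4 * (1 / (1200 * (N:ℝ) ^ 6)) := by
        intro p hp
        have e3 : h0 N (p 0, p 1) *
          Complex.exp (Complex.I * ((-((N:ℝ) ^ 4 * (κ * p 1 ^ d)) : ℝ) : ℂ)) - h0 N (p 0, p 1)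
          = h0 N (p 0, p 1) * (Complex.exp (Complex.I *
            ((-((N:ℝ) ^ 4 * (κ * p 1 ^ d)) : ℝ) : ℂ)) - 1) := by ring
        rw [e3, norm_mul, norm_h0, one_mul]
        refine Real.norm_exp_I_mul_ofReal_sub_one_le.trans ?_
        rw [Real.norm_eq_abs, abs_neg]
        have hp1 : 0 ≤ p 1 := hp.1
        have h3 : p 1 ^ d ≤ (2 * Real.pi) ^ d := pow_le_pow_left₀ hp1 hp.2.1 d
        rw [abs_of_nonneg (by positivity), ← hκπ]
        gcongr
      have h4 := norm_setIntegral_le_of_norm_le_const hfinK hb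
      refine h4.trans ?_
      have h5 : volume.real (K N) ≤ 300 := hVr
      calc (N:ℝ) ^ 4 * (1 / (1200 * (N:ℝ) ^ 6)) * volume.real (K N)
          ≤ (N:ℝ) ^ 4 * (1 / (1200 * (N:ℝ) ^ 6)) * 300 := by gcongr
        _ = 1 / (4 * (N:ℝ) ^ 2) := by field_simp; norm_num
    have hmain := integral_K hN4
    have hlow : 1 / (4 * (N:ℝ) ^ 2) ≤ ‖∫ p in K N, h0 N (p 0, p 1) *
        Complex.exp (Complex.I * ((-((N:ℝ) ^ 4 * (κ * p 1 ^ d)) : ℝ) : ℂ))‖ := by
      have h6 := norm_sub_norm_le (∫ p in K N, h0 N (p 0, p 1))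
        (∫ p in K N, h0 N (p 0, p 1) *
        Complex.exp (Complex.I * ((-((N:ℝ) ^ 4 * (κ * p 1 ^ d)) : ℝ) : ℂ)))
      rw [norm_sub_rev] at hdiff
      have h7 : 1 / (2 * (N:ℝ) ^ 2) - 1 / (4 * (N:ℝ) ^ 2) = 1 / (4 * (N:ℝ) ^ 2) := by
        field_simp; norm_num
      linarith
    simp_rw [hexp]
    rw [ENNReal.toReal_inv, norm_smul, norm_inv, Real.norm_of_nonneg hVr0.le]
    have hlow2 : 1 / (1200 * (N:ℝ) ^ 2) ≤ V.toReal⁻¹ * ‖∫ p in K N, h0 N (p 0, p 1) *
        Complex.exp (Complex.I * ((-((N:ℝ) ^ 4 * (κ * p 1 ^ d)) : ℝ) : ℂ))‖ := by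
      calc 1 / (1200 * (N:ℝ) ^ 2) = (300:ℝ)⁻¹ * (1 / (4 * (N:ℝ) ^ 2)) := by field_simp; norm_num
        _ ≤ _ := by gcongr
    refine lt_of_lt_of_le ?_ hlow2
    rw [abs_of_pos ht]
    have htα : t ^ α = (N:ℝ) ^ 2 * (N:ℝ) ^ (α - 1 / 2) / M := by
      rw [htdef, Real.div_rpow (by positivity) hA.le, hAα, hδdef]
      have e4 : (((N:ℝ) ^ 3)⁻¹) ^ (1 / 2 - α) = (N:ℝ) ^ (3 * α - 3 / 2) := by
        rw [← Real.rpow_natCast (N:ℝ) 3, ← Real.rpow_neg hNr.le, ← Real.rpow_mul hNr.le]
        congr 1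
        push_cast
        ring
      have e5 : ((N:ℝ) ^ 4) ^ α = (N:ℝ) ^ 2 * (N:ℝ) ^ (α - 1 / 2) * (N:ℝ) ^ (3 * α - 3 / 2) := by
        rw [← Real.rpow_natCast (N:ℝ) 4, ← Real.rpow_mul hNr.le, ← Real.rpow_natCast (N:ℝ) 2,
          ← Real.rpow_add hNr, ← Real.rpow_add hNr]
        congr 1
        push_cast
        ring
      rw [e4, e5]
      have : 0 < (N:ℝ) ^ (3 * α - 3 / 2) := by positivity
      field_simp
    rw [htα, div_lt_div_iff₀ (by positivity) (by positivity), one_mul]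
    have hN2 : 0 < (N:ℝ) ^ 2 := by positivity
    rw [lt_div_iff₀ hM]
    calc C' * (1200 * (N:ℝ) ^ 2) * M = (N:ℝ) ^ 2 * (1200 * M * C') := by ring
      _ < (N:ℝ) ^ 2 * (N:ℝ) ^ (α - 1 / 2) := by gcongr

end Pool.Agent.Results.MP_6d4359_pr.FourierDecayFails
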